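import Pool.Agent.Helper86.Poly.Goals

/-! # MP_cd13d2_co : the exact value of `V(3,6)`, packets

`E 3 = EuclideanSpace ℝ (Fin 3)`. Every packet is a `def G_... : Prop`; prove `theorem thm : G_...` (with the
hypotheses named in the docstring, for example `theorem thm (h1 : G_D1) : G_D5`), in a file of your own with the namespace
`Pool.Agent.HelperNN.Vol.PkXX`.

THEOREM. `6 V(3,6) = max_{0 ≤ N ≤ 1/2} f N`, `f N = √(3/4 - N²) + N √(4 - (1 + 2N)²)` (`= 1.172453...`). -/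

set_option autoImplicit false

namespace Pool.Agent.Helper89.Vol

open MeasureTheory Set Pool.Agent.Helper86.Poly

/-- six times the signed volume of the simplex with the vertices `p q r t` -/
noncomputable def br (p q r t : E 3) : ℝ :=
  Matrix.det !![q 0 - p 0, q 1 - p 1, q 2 - p 2; r 0 - p 0, r 1 - p 1, r 2 - p 2;
    t 0 - p 0, t 1 - p 1, t 2 - p 2]

/-- the `6 × 6` determinant with the rows `(1, x k 0, x k 1, x k 2, u k, v k)` -/
noncomputable def W (x : Fin 6 → E 3) (u v : Fin 6 → ℝ) : ℝ :=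
  Matrix.det (Matrix.of fun k : Fin 6 => ![1, x k 0, x k 1, x k 2, u k, v k])

/-- `Dt x i j = W x e_i e_j`: up to the sign it is six times the volume of the hull of the four points
`x k`, `k ≠ i, j`. -/
noncomputable def Dt (x : Fin 6 → E 3) (i j : Fin 6) : ℝ := W x (Pi.single i 1) (Pi.single j 1)

/-- the function whose maximum on `[0, 1/2]` is `6 V(3,6)` -/
noncomputable def f (N : ℝ) : ℝ := √(3 / 4 - N ^ 2) + N * √(4 - (1 + 2 * N) ^ 2)

/-- the height of the two outer vertices of the pentagon -/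
noncomputable def hh (N : ℝ) : ℝ := √(3 / 4 - N ^ 2) - √(1 - (1 / 2 + N) ^ 2)

/-- the six points of the extremal polytope: the segment from `(0,0,0)` to `(0,0,1)` and four vertices of a pentagon in
the plane `z = 1/2`, whose fifth vertex is the midpoint of the segment. -/
noncomputable def Q (N : ℝ) : Fin 6 → E 3 :=
  ![!₂[0, 0, 0], !₂[0, 0, 1], !₂[-(1 / 2), hh N, 1 / 2], !₂[-N, √(3 / 4 - N ^ 2), 1 / 2],
    !₂[N, √(3 / 4 - N ^ 2), 1 / 2], !₂[1 / 2, hh N, 1 / 2]]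

/-! ## Part D: determinants -/

/-- G_D1. `Dt` is antisymmetric, and the rows are affine dependencies of the points.
Proof. Exchange the last two columns (`Matrix.det_permute'` or `det_swap`-type, or `Matrix.detRowAlternating` on the
transpose). `∑_j Dt x i j * c j = W x e_i c` by linearity of the determinant in the last column (`c = 1`, or the coordinate
`c j = x j m`), and that matrix has two equal columns (`Matrix.det_zero_of_column_eq`). -/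
def G_D1 : Prop := ∀ x : Fin 6 → E 3, (∀ i j, Dt x i j = -Dt x j i) ∧ (∀ i, ∑ j, Dt x i j = 0) ∧
  ∀ i (m : Fin 3), ∑ j, Dt x i j * x j m = 0

/-- G_D2, the Pluecker relation.
Proof. Let `A` be the matrix with the columns `1, x·0, x·1, x·2, e_i, e_j` (so `det A = Dt x i j`) and `z = e_l`. Cramer:
`det A • z = ∑_c det (A.updateCol c z) • (column c of A)` (`Matrix.mulVec_cramer`, `Matrix.cramer_apply`). Apply the linear map
`v ↦ W x e_k v`: it kills the first four columns (two equal columns), so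
`Dt x i j * Dt x k l = W x e_l e_j * W x e_k e_i + W x e_i e_l * W x e_k e_j`, that is
`D_ij D_kl = D_lj D_ki + D_il D_kj`, which is the claim by antisymmetry. -/
def G_D2 : Prop := ∀ (x : Fin 6 → E 3) (i j k l : Fin 6),
  Dt x i j * Dt x k l - Dt x i k * Dt x j l + Dt x i l * Dt x j k = 0

/-- G_D3. Proof. `Matrix.det_permute` (rows permuted by `σ`); `Pi.single i 1 k = Pi.single (σ i) 1 (σ k)`. -/
def G_D3 : Prop := ∀ (x : Fin 6 → E 3) (σ : Equiv.Perm (Fin 6)) (i j : Fin 6),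
  Dt (x ∘ σ) i j = (Equiv.Perm.sign σ : ℤ) * Dt x (σ i) (σ j)

/-- G_D4, the minors. Proof. Expand along the last two columns (unit vectors): the `4 × 4` minor with the rows
`(1, x k)` of the four remaining points (`Matrix.det_succ_column`, `Fin.sum_univ_succ`, `simp`, `ring`; the sign is
`(-1)^(i+j+1)` for `i < j`), and the `4 × 4` determinant is `br`. Or by brute force `simp [Dt, W, br, Matrix.det_succ_row_zero,
Fin.sum_univ_succ, ...]; ring`. -/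
def G_D4 : Prop := ∀ x : Fin 6 → E 3, Dt x 2 3 = br (x 0) (x 1) (x 4) (x 5) ∧
  Dt x 2 4 = -br (x 0) (x 1) (x 3) (x 5) ∧ Dt x 2 5 = br (x 0) (x 1) (x 3) (x 4) ∧
  Dt x 3 4 = br (x 0) (x 1) (x 2) (x 5) ∧ Dt x 3 5 = -br (x 0) (x 1) (x 2) (x 4) ∧
  Dt x 4 5 = br (x 0) (x 1) (x 2) (x 3)

/-- G_D5, volumes: prove `theorem thm (hSV : G_SV) (h3 : G_D3) (h4 : G_D4) : G_D5` (`G_SV` is in
`Pool.Agent.Helper86.Poly.Goals`, proved).
Proof. Let `σ` be a permutation with `σ 4 = i`, `σ 5 = j` (exists: for example `decide`d, or a composition of two swaps). Then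
`|Dt x i j| = |Dt (x ∘ σ) 4 5| = |br (x (σ 0)) (x (σ 1)) (x (σ 2)) (x (σ 3))|`, which by `G_SV` with `d = 3`,
`p = ![x (σ 0), x (σ 1), x (σ 2), x (σ 3)]` is six times the volume of the hull of `x '' {k | k ≠ i ∧ k ≠ j}`. -/
def G_D5 : Prop := ∀ (x : Fin 6 → E 3) (i j : Fin 6), i ≠ j →
  6 * volume (convexHull ℝ (x '' {k | k ≠ i ∧ k ≠ j})) = ENNReal.ofReal |Dt x i j|

/-- G_D6, scaling. Proof. The columns 1, 2, 3 are multiplied by `c` (`Matrix.det_mul_row`/`det_mul_column`-type with the vector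
`![1, c, c, c, 1, 1]`). -/
def G_D6 : Prop := ∀ (x : Fin 6 → E 3) (c : ℝ) (i j : Fin 6),
  Dt (fun k => c • x k) i j = c ^ 3 * Dt x i j

/-- G_DENS, generic points are dense. Proof. Let `y k` be the point `(k, k², k³)` of the moment curve (or other explicit points);
`Dt y i j ≠ 0` for `i ≠ j`: a vector `c` with `c 0 + c 1 k + c 2 k² + c 3 k³ + c 4 δ_{ki} + c 5 δ_{kj} = 0` for all `k` gives a cubic
polynomial with four different zeros, so `c = 0` (`Matrix.exists_mulVec_eq_zero_iff`); or numerically. For `x_t = x + t (y - x)` the number `Dt x_t i j` is the value at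
`t` of a polynomial (determinant of a matrix over `ℝ[X]`, `RingHom.map_det` for the evaluation), which is not zero at `t = 1`; so it is a
nonzero polynomial with finitely many zeros. So there are arbitrarily small `t > 0` for which all `Dt x_t i j ≠ 0`, `i ≠ j`. -/
def G_DENS : Prop := ∀ (x : Fin 6 → E 3) (δ : ℝ), 0 < δ → ∃ y : Fin 6 → E 3,
  (∀ i, dist (x i) (y i) < δ) ∧ ∀ i j, i ≠ j → Dt y i j ≠ 0

/-! ## Part C: combinatorics and covering -/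

/-- G_SRT, sorting. Proof. Put `s 0 = 1` and `s k = 1` or `-1` with `s k * D 0 k > 0` for `k ≠ 0`; `D' i j = s i * s j * D i j` satisfies
the same relations, `D' 0 k > 0` for `k ≠ 0`. Let `t k = D' 1 k / (D' 0 1 * D' 0 k)` for `k ≠ 0`. The Pluecker relation for `(0, 1, j, k)`
gives `D' j k = D' 0 j * D' 0 k * (t k - t j)` for `j, k ≠ 0`. So the `t k` (`k ≠ 0`) are different, and with a permutation `σ` with `σ 0 = 0` which sorts
the `t k`, `k ≠ 0` (`Tuple.sort` on `Fin 5`, `Equiv.Perm.decomposeFin` or `finSuccEquiv`-type extension), `D' (σ i) (σ j) > 0` for `i < j`. -/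
def G_SRT : Prop := ∀ D : Fin 6 → Fin 6 → ℝ, (∀ i j, D i j = -D j i) → (∀ i j, i ≠ j → D i j ≠ 0) →
  (∀ i j k l, D i j * D k l - D i k * D j l + D i l * D j k = 0) →
  ∃ (σ : Equiv.Perm (Fin 6)) (s : Fin 6 → ℝ), (∀ i, s i = 1 ∨ s i = -1) ∧
    ∀ i j, i < j → 0 < s i * s j * D (σ i) (σ j)

/-- G_TW, twins: prove `theorem thm (h : G_SRT) : G_TW`.
Proof. From `G_SRT` take `σ, s`. If `s 0 = s 1` we are done, multiplying all `s` by `s 0`. Rotation: from `(σ, s)` one gets `(σ', s')` with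
`σ' i = σ (i + 1)` (cyclic), `s' i = s (i + 1)` for `i < 5` and `s' 5 = -s 0`, with the same property (for `i < 5`:
`s' i * s' 5 * D (σ (i+1)) (σ 0) = s (i+1) * s 0 * D (σ 0) (σ (i+1)) > 0`). After `m` rotations the first two signs are `s m, s (m+1)` for
`m ≤ 4` and `s 5, -s 0` for `m = 5`. If none of these six pairs is a pair of equal signs then `s (m+1) = -s m` for `m ≤ 4`, so `s 5 = -s 0`, and also
`s 5 = s 0`: contradiction. -/
def G_TW : Prop := ∀ D : Fin 6 → Fin 6 → ℝ, (∀ i j, D i j = -D j i) → (∀ i j, i ≠ j → D i j ≠ 0) →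
  (∀ i j k l, D i j * D k l - D i k * D j l + D i l * D j k = 0) →
  ∃ (σ : Equiv.Perm (Fin 6)) (s : Fin 6 → ℝ), (∀ i, s i = 1 ∨ s i = -1) ∧ s 0 = 1 ∧ s 1 = 1 ∧
    ∀ i j, i < j → 0 < s i * s j * D (σ i) (σ j)

/-- G_COV1, covering, pointwise. `D` is antisymmetric, its rows are affine dependencies of the points, `a → b` are twins.
Proof. Let `p` be in the hull and not in the hull of any three (or fewer) of the points. The set `Λ` of the `w : Fin 6 → ℝ`, `w ≥ 0`,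
`∑ w = 1`, `∑ w k • x k = p` is nonempty and compact. Let `w` maximise `w a + w b` on `Λ`, and among the maximisers let the number of
`k` with `w k ≠ 0` be as small as possible.
(1) At least two coordinates of `w` vanish: otherwise there is `i` with `w k > 0` for all `k ≠ i`; let `μ = D i ·` (so `μ i = 0`,
`μ k ≠ 0` for `k ≠ i`, `∑ μ = 0`, `∑ μ k • x k = 0`). For small `|t|`, `w + t μ ∈ Λ`, so `μ a + μ b = 0` by maximality, and going with `t` (in the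
direction of a negative coordinate of `μ`) up to the first moment where a coordinate `k ≠ i` becomes `0` gives a maximiser with a smaller support.
(2) By the choice of `p` exactly two coordinates vanish, `w i = w j = 0`; let `0 < D i j` (else exchange them). `D i ·` has the entries `0` at `i`
and `> 0` at `j`, and `-D j ·` has `D i j > 0` at `i` and `0` at `j`; the other `w k` are positive. So `w + t D i · ∈ Λ` and `w - t D j · ∈ Λ` for small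
`t > 0`, hence by maximality `D i a + D i b ≤ 0` and `0 ≤ D j a + D j b`. (3) Cases. `i = a`: `D a a + D a b = D a b > 0`, contradiction. `j = b`: if `i = a` as
before; else `D i b > 0`, so by the twin condition `D i a > 0` (`0 < D a i * D b i`), contradiction. `j = a`: `D i a > 0`; `i ≠ b` since `D a b > 0`, so by the twin
condition `D i b > 0`, contradiction. `i = b` (and `j ≠ a, b`): `D b j > 0`, so by the twin condition `D a j > 0`, so `D j a + D j b < 0`, contradiction. So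
`i, j ∉ {a, b}`, `D i a, D i b` have the same sign, so both are negative: `0 < D a i`; and `D j a, D j b` have the same sign, so both are positive. -/
def G_COV1 : Prop := ∀ (x : Fin 6 → E 3) (D : Fin 6 → Fin 6 → ℝ) (a b : Fin 6),
  (∀ i j, D i j = -D j i) → (∀ i j, i ≠ j → D i j ≠ 0) → (∀ i, ∑ j, D i j = 0) →
  (∀ i (m : Fin 3), ∑ j, D i j * x j m = 0) → 0 < D a b →
  (∀ k, k ≠ a → k ≠ b → 0 < D a k * D b k) → ∀ p ∈ convexHull ℝ (range x),
  (∀ T : Finset (Fin 6), T.card ≤ 3 → p ∉ convexHull ℝ (x '' (T : Set (Fin 6)))) →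
  ∃ i j, i ≠ b ∧ 0 < D a i ∧ 0 < D j a ∧ 0 < D i j ∧ p ∈ convexHull ℝ (x '' {k | k ≠ i ∧ k ≠ j})

/-- G_COV2, covering, volumes: prove `theorem thm (h : G_COV1) : G_COV2`.
Proof. The hull of at most three points of `E 3` is contained in a proper affine subspace (`finrank` of the direction of
the `affineSpan` is at most `2`, `finrank_vectorSpan_le_iff...`/`finrank_vectorSpan_range_le`), so it is null (`Measure.addHaar_affineSubspace`). So up to a null set the hull is contained in the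
union of the sets `convexHull ℝ (x '' {k | k ≠ i ∧ k ≠ j})` over the pairs of `G_COV1`; countable subadditivity. -/
def G_COV2 : Prop := ∀ (x : Fin 6 → E 3) (D : Fin 6 → Fin 6 → ℝ) (a b : Fin 6),
  (∀ i j, D i j = -D j i) → (∀ i j, i ≠ j → D i j ≠ 0) → (∀ i, ∑ j, D i j = 0) →
  (∀ i (m : Fin 3), ∑ j, D i j * x j m = 0) → 0 < D a b →
  (∀ k, k ≠ a → k ≠ b → 0 < D a k * D b k) →
  volume (convexHull ℝ (range x)) ≤ ∑ i, ∑ j, if i ≠ b ∧ 0 < D a i ∧ 0 < D j a ∧ 0 < D i j then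
      volume (convexHull ℝ (x '' {k | k ≠ i ∧ k ≠ j})) else 0

/-- G_HAD, Hadamard. Proof. `det = u · (v × w)`, `(u · z)² ≤ |u|² |z|²`, `|v × w|² = |v|² |w|² - (v · w)² ≤ 1`. -/
def G_HAD : Prop := ∀ u v w : Fin 3 → ℝ, u 0 ^ 2 + u 1 ^ 2 + u 2 ^ 2 ≤ 1 → v 0 ^ 2 + v 1 ^ 2 + v 2 ^ 2 ≤ 1 →
  w 0 ^ 2 + w 1 ^ 2 + w 2 ^ 2 ≤ 1 →
  |Matrix.det !![u 0, u 1, u 2; v 0, v 1, v 2; w 0, w 1, w 2]| ≤ 1

/-- G_FIN, the sixteen sign patterns: prove `theorem thm (h1 : G_D1) (h4 : G_D4) (hH : G_HAD) : G_FIN`.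
Proof. Write `β p q = br (y 0) (y 1) (y p) (y q)`; it is antisymmetric. By `G_D1`, `G_D4`: `Dt y 3 2 = -β 4 5`, `Dt y 4 2 = β 3 5`, `Dt y 5 2 = -β 3 4`,
`Dt y 4 3 = -β 2 5`, `Dt y 5 3 = β 2 4`, `Dt y 5 4 = -β 2 3`. The sum runs over the pairs `m > n ≥ 2` with `s m = 1`, `s n = -1`. The patterns `(s 2, s 3, s 4, s 5)` (p = plus, m = minus):
`mpmp`: `c (-β 4 5 - β 3 4 - β 2 3)`, bounded by the hypothesis of the path. `mmpp`: `c (β 3 5 - β 3 4 - β 2 5 + β 2 4)` is `± det (y1 - y0, y3 - y2, y5 - y4)`, at most `1` by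
`G_HAD`. `mppp`: `-c (β 4 5 + β 5 3 + β 3 4) = ± det (y1 - y0, y4 - y3, y5 - y3)` and `mmmp`: `-c (β 3 4 + β 4 2 + β 2 3) = ± det (y1 - y0, y3 - y2, y4 - y2)`: at most
`1`. `pmpp`: `c (β 2 4 - β 2 5)`, `mppm`: `c (β 3 5 - β 4 5)`, `pmmp`: `c (β 2 4 - β 2 3)`, `mmpm`: `c (β 3 5 - β 2 5)`: each is
`± det (y1 - y0, y p - y0, y q - y r)`, at most `1`. `ppmp`, `pmpm`, `mpmm`: one term `± β p q = ± det (y1 - y0, y p - y0, y q - y p)`, at most `1`. The others: `0`. -/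
def G_FIN : Prop := ∀ C : ℝ, 1 ≤ C →
  (∀ y : Fin 6 → E 3, (∀ i j, dist (y i) (y j) ≤ 1) →
    |br (y 0) (y 1) (y 2) (y 3) + br (y 0) (y 1) (y 3) (y 4) + br (y 0) (y 1) (y 4) (y 5)| ≤ C) →
  ∀ y : Fin 6 → E 3, (∀ i j, dist (y i) (y j) ≤ 1) → ∀ (c : ℝ) (s : Fin 6 → ℝ), (c = 1 ∨ c = -1) →
    (∀ i, s i = 1 ∨ s i = -1) → s 0 = 1 → s 1 = 1 →
    (∑ m, ∑ n, if n < m ∧ 2 ≤ n ∧ s m = 1 ∧ s n = -1 then c * Dt y m n else 0) ≤ C

/-! ## Part J: the planar inequality -/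

/-- G_JA1. Proof. `M² ≤ 3/4 - (k + N)² ≤ M0² - 2 k N` with `M0 = √(3/4 - N²) > 0`, so `M ≤ M0 - k N / M0` (square it), hence
`k g2 + M g1 ≤ M0 g1 + k (g2 - N g1 / M0) ≤ M0 g1`; and `S² ≤ 4 - (g1 + 2N)²`. -/
def G_JA1 : Prop := ∀ N k M g1 g2 S : ℝ, 0 ≤ N → N ≤ 1 / 2 → 0 ≤ k → 0 ≤ M → 0 ≤ g1 → 0 ≤ g2 → 0 ≤ S →
  (k + N) ^ 2 + M ^ 2 ≤ 3 / 4 → g1 ^ 2 + g2 ^ 2 ≤ 1 →
  S ^ 2 + g1 ^ 2 + g2 ^ 2 + 4 * N ^ 2 + 4 * N * g1 ≤ 4 → √(3 / 4 - N ^ 2) * g2 ≤ N * g1 →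
  k * g2 + M * g1 + N * S ≤ √(3 / 4 - N ^ 2) * g1 + N * √(4 - (g1 + 2 * N) ^ 2)

/-- G_JA2. Proof. With `M0 = √(3/4 - N²)`, `A = 4 - (g + 2N)²`, `B = 4 - (1 + 2N)² ≤ A`, `B > 0`: for `N ≤ 9/25` the claim `M0 g + N √A ≤ M0 + N √B` follows from
`√A - √B = (A - B)/(√A + √B) ≤ (1 - g)(1 + g + 4N)/(2 √B) ≤ (1 - g)(1 + 2N)/√B` and `N (1 + 2N) ≤ M0 √B`, i.e. `N² (1+2N)² ≤ (3/4 - N²)(4 - (1+2N)²)`, which holds
for `0 ≤ N ≤ 9/25` (the left side is at most `0.39`, the right side at least `0.64`). For `N ≥ 9/25`: with `v = g + 2N`,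
`M0 v + N √(4 - v²) ≤ √((M0² + N²) 4) = √3` (Cauchy-Schwarz) and `2 N M0 ≥ 2 (9/25) √(3/4 - (9/25)²) > 0.567` (`N² (3/4 - N²)` is increasing for `N² ≤ 3/8`), so the left
side is at most `√3 - 0.567 < 1.166`. -/
def G_JA2 : Prop := ∀ N g : ℝ, 0 ≤ N → N ≤ 1 / 2 → 0 ≤ g → g ≤ 1 →
  (N ≤ 9 / 25 → √(3 / 4 - N ^ 2) * g + N * √(4 - (g + 2 * N) ^ 2) ≤ f N) ∧
  (9 / 25 ≤ N → √(3 / 4 - N ^ 2) * g + N * √(4 - (g + 2 * N) ^ 2) ≤ 1.17)

/-- G_JB. Proof. Let `G = √(g1² + g2²) ≤ 1`, `R = √3/2`. Cauchy-Schwarz: `(k + N) g2 + M g1 ≤ R G`. AM-GM: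
`S ≤ (S² + 1.3²)/2.6 ≤ (5.69 - G² - 4N² - 4N g1)/2.6`. So `LHS ≤ R G - N (g2 + (20/13) N g1) + (5N/13)(5.69 - G² - 4N²)`.
From `√3 g2 ≥ 2 N g1`, i.e. `g2 ≥ 1.1547 N g1`: (i) if `N ≤ 5/12` then `g2 + (20/13) N g1 ≥ 2.4 N G`: the difference of the squares is
`(1 - 5.76 N²) g2² + (40/13) N g1 g2 - 3.3932 N² g1² ≥ (3.5529 - 3.3932) N² g1² ≥ 0`. (ii) if `5/12 ≤ N ≤ 1/2` then `g2 + (20/13) N g1 ≥ G`: with `κ = (20/13) N`, the
difference of the squares is `g1 (2 κ g2 - (1 - κ²) g1) ≥ g1² (3.5529 N² - 1 + 2.3668 N²) ≥ 0`. So in case (i) `LHS ≤ G (R - 2.4 N²) + (5N/13)(5.69 - G² - 4N²)`, which is increasing in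
`G ∈ [0, 1]` (derivative `≥ R - 2.4 N² - 10 N/13 > 0`), and for `G = 1` it is `R - 2.4 N² + (5N/13)(4.69 - 4N²) ≤ 1.15`. In case (ii)
`LHS ≤ G (R - N) + (5N/13)(5.69 - G² - 4N²) ≤ 1.1` (use `G² ≥ 2 G g₀ - g₀²` with `g₀ = 1`, then `G ≤ 1` or `G ≥ 0` by the sign; or `nlinarith`). -/
def G_JB : Prop := ∀ N k M g1 g2 S : ℝ, 0 ≤ N → N ≤ 1 / 2 → 0 ≤ k → 0 ≤ M → 0 ≤ g1 → 0 ≤ g2 → 0 ≤ S →
  (k + N) ^ 2 + M ^ 2 ≤ 3 / 4 → g1 ^ 2 + g2 ^ 2 ≤ 1 →
  S ^ 2 + g1 ^ 2 + g2 ^ 2 + 4 * N ^ 2 + 4 * N * g1 ≤ 4 → 2 * N * g1 ≤ √3 * g2 →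
  k * g2 + M * g1 + N * S ≤ 1.17

/-- G_NUM, numerics. Proof. Lower bound for `f (379/1250)` (`= 0.3032`): `√` of rationals from below. Upper bound for all `N ∈ [0, 1/2]`: with
`α = 0.811215`, `β = 1.191419`: `√X ≤ (X + α²)/(2α)`, `√Y ≤ (Y + β²)/(2β)`, so
`f N ≤ (3/4 - N² + α²)/(2α) + N (3 - 4N - 4N² + β²)/(2β)`, a concave cubic on `[0, 1/2]` with its maximum `≈ 1.1724532` at `≈ 0.3032` (write it as value minus
`(N - 0.3032)² (positive)` plus a tiny linear term, `nlinarith`). The maximum is attained by continuity (`IsCompact.exists_isMaxOn`). -/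
def G_NUM : Prop := (∃ N ∈ Icc (0 : ℝ) (1 / 2), ∀ M ∈ Icc (0 : ℝ) (1 / 2), f M ≤ f N) ∧
  (1.172453 < f (379 / 1250)) ∧ ∀ N ∈ Icc (0 : ℝ) (1 / 2), f N < 1.172454

/-- G_J: prove `theorem thm (h1 : G_JA1) (h2 : G_JA2) (h3 : G_JB) (hn : G_NUM) : G_J`.
Proof. If `√(3/4 - N²) g2 ≤ N g1` use `G_JA1` and `G_JA2`; otherwise `N g1 ≤ √(3/4 - N²) g2 ≤ (√3/2) g2` and `G_JB` applies.
`1.17 < f (379/1250) ≤ C`. -/
def G_J : Prop := ∀ C : ℝ, (∀ N ∈ Icc (0 : ℝ) (1 / 2), f N ≤ C) →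
  ∀ N k M g1 g2 S : ℝ, 0 ≤ N → N ≤ 1 / 2 → 0 ≤ k → 0 ≤ M → 0 ≤ g1 → 0 ≤ g2 → 0 ≤ S →
  (k + N) ^ 2 + M ^ 2 ≤ 3 / 4 → g1 ^ 2 + g2 ^ 2 ≤ 1 →
  S ^ 2 + g1 ^ 2 + g2 ^ 2 + 4 * N ^ 2 + 4 * N * g1 ≤ 4 →
  k * g2 + M * g1 + N * S ≤ C

/-- G_PA0, the path inequality in adapted coordinates: prove `theorem thm (h : G_J) : G_PA0`. The segment is `(0,0,z)`, `(0,0,z+l)`; the
points are `(a0,a1,a2)` etc. with `c1 = b1`, `b0 ≤ c0`.
Proof. `0 ≤ l ≤ 1`. For each of the four points `p0² + p1² ≤ 1 - l²/4` (add the two distances to the ends of the segment: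
`p0² + p1² + ((p2 - z)² + (p2 - z - l)²)/2 ≤ 1` and the bracket is at least `l²/2`); planar distances are at most `1`. Let
`n = (c0 - b0)/2 ≥ 0`, `m = ((b0 + c0)/2, b1)`, `g = (d0 - a0, d1 - a1)`, `σ = (.., a1 + d1 - b1 - c1)`. Then (polynomial identity)
`(a0 b1 - a1 b0) + (b0 c1 - b1 c0) + (c0 d1 - c1 d0) = m0 g1' - m1 g0 + n σ1` (`g = (g0, g1')`). Apply `G_J` with `N = l n`, `k = l |m0|`, `M = l |m1|`, `g1 = |g0|`,
`g2 = |g1'|`, `S = |σ1|`: `(k + N)² + M² = l² ((|m0| + n)² + m1²) ≤ l² (1 - l²/4) ≤ 3/4` since `|m0| + n` is `|b0|` or `|c0|`; `N ≤ 1/2` as `2n ≤ 1`;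
`g1² + g2² ≤ 1`; and from `|a-c|² + |d-b|² ≤ 2` and `|a-b|² + |d-c|² ≤ 2` (planar): with `σ0 = a0 + d0 - b0 - c0`,
`σ0² + σ1² + (g0 ± 2n)² + g1'² ≤ 4`, so `σ1² + g0² + g1'² + 4n² + 4n|g0| ≤ 4`, and `N ≤ n`. The result bounds
`l * (...)`; for `- l * (...)` the same. -/
def G_PA0 : Prop := ∀ C : ℝ, (∀ N ∈ Icc (0 : ℝ) (1 / 2), f N ≤ C) →
  ∀ z l a0 a1 a2 b0 b1 b2 c0 c1 c2 d0 d1 d2 : ℝ, 0 ≤ l → l ≤ 1 → c1 = b1 → b0 ≤ c0 →
  a0 ^ 2 + a1 ^ 2 + (a2 - z) ^ 2 ≤ 1 → a0 ^ 2 + a1 ^ 2 + (a2 - z - l) ^ 2 ≤ 1 →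
  b0 ^ 2 + b1 ^ 2 + (b2 - z) ^ 2 ≤ 1 → b0 ^ 2 + b1 ^ 2 + (b2 - z - l) ^ 2 ≤ 1 →
  c0 ^ 2 + c1 ^ 2 + (c2 - z) ^ 2 ≤ 1 → c0 ^ 2 + c1 ^ 2 + (c2 - z - l) ^ 2 ≤ 1 →
  d0 ^ 2 + d1 ^ 2 + (d2 - z) ^ 2 ≤ 1 → d0 ^ 2 + d1 ^ 2 + (d2 - z - l) ^ 2 ≤ 1 →
  (a0 - b0) ^ 2 + (a1 - b1) ^ 2 ≤ 1 → (a0 - c0) ^ 2 + (a1 - c1) ^ 2 ≤ 1 →
  (a0 - d0) ^ 2 + (a1 - d1) ^ 2 ≤ 1 → (b0 - c0) ^ 2 + (b1 - c1) ^ 2 ≤ 1 →
  (b0 - d0) ^ 2 + (b1 - d1) ^ 2 ≤ 1 → (c0 - d0) ^ 2 + (c1 - d1) ^ 2 ≤ 1 →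
  |l * ((a0 * b1 - a1 * b0) + (b0 * c1 - b1 * c0) + (c0 * d1 - c1 * d0))| ≤ C

/-- G_FRM, an adapted frame. Proof. Choose an orthonormal triple `u v w` of `E 3` with `e = ‖e‖ w` and `n ∈ span (w, u)` with nonnegative inner
product with `u`: `w = e/‖e‖` (any unit vector if `e = 0`), `n' = n - ⟪n, w⟫ w`, `u = n'/‖n'‖` (any unit vector orthogonal to `w` if `n' = 0`), `v` the third one (for example the cross product of `w` and `u` in coordinates, or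
`exists_orthonormalBasis_extension`-type). `L` maps `p` to `(⟪u,p⟫, ⟪v,p⟫, ⟪w,p⟫)`; the matrix `A` of `L` (the rows are the coordinates of `u, v, w`) satisfies
`A Aᵀ = 1`, so `det A = ±1`, and `br (L p) (L q) (L r) (L t) = det A * br p q r t` (the rows `q - p`, `r - p`, `t - p` are multiplied by `Aᵀ` from the right). -/
def G_FRM : Prop := ∀ e n : E 3, ∃ (L : E 3 ≃ₗᵢ[ℝ] E 3) (ε : ℝ), (ε = 1 ∨ ε = -1) ∧
  (∀ p q r t : E 3, br (L p) (L q) (L r) (L t) = ε * br p q r t) ∧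
  L e 0 = 0 ∧ L e 1 = 0 ∧ L e 2 = ‖e‖ ∧ L n 1 = 0 ∧ 0 ≤ L n 0

/-- G_PATH: prove `theorem thm (h : G_PA0) (hF : G_FRM) : G_PATH`.
Proof. `G_FRM` for `e = y 1 - y 0`, `n = y 4 - y 3`; the points `y' k = L (y k - y 0)` have the same distances, `y' 0 = 0`, `y' 1 = (0,0,‖e‖)`, and
`y' 4 - y' 3` has the coordinate `1` equal to `0` and the coordinate `0` nonnegative. `br 0 (0,0,l) p q = l (p0 q1 - p1 q0)`. Apply `G_PA0` with `z = 0`, `l = ‖e‖ ≤ 1`,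
`a, b, c, d = y' 2, y' 3, y' 4, y' 5`. -/
def G_PATH : Prop := ∀ C : ℝ, (∀ N ∈ Icc (0 : ℝ) (1 / 2), f N ≤ C) →
  ∀ y : Fin 6 → E 3, (∀ i j, dist (y i) (y j) ≤ 1) →
    |br (y 0) (y 1) (y 2) (y 3) + br (y 0) (y 1) (y 3) (y 4) + br (y 0) (y 1) (y 4) (y 5)| ≤ C

/-! ## Part U: the upper bound -/

/-- G_UPG, generic points: prove
`theorem thm (h1 : G_D1) (h2 : G_D2) (h3 : G_D3) (h5 : G_D5) (hT : G_TW) (hC : G_COV2) (hF : G_FIN) (hP : G_PATH) (hN : G_NUM) : G_UPG`.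
Proof. `G_TW` for `D = Dt x` gives `σ, s`. Let `a = σ 0`, `b = σ 1`, `y = x ∘ σ`, `c = sign σ`, so `Dt x (σ m) (σ n) = c * Dt y m n` (`G_D3`). `D a b > 0`, and for
`k = σ m`, `m ≥ 2`: `s m * D a k > 0`, `s m * D b k > 0`, so `D a k * D b k > 0`. By `G_COV2` and `G_D5`, `6 vol ≤ ∑ |D i j|` over the pairs `i = σ m`, `j = σ n` with
`i ≠ b`, `D a i > 0`, `D j a > 0`, `D i j > 0`. Here `m ≠ 0, 1`, `s m = 1`, `n ≥ 2` (`n ≠ 0`, and `n ≠ 1` since `D b a < 0`), `s n = -1`, and `m > n` (if `m < n` then `0 < s m * s n * D i j = -D i j`). So the sum is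
at most the sum of `G_FIN` (for these pairs `|D i j| = D i j = c * Dt y m n`; the conditions `n < m`, `2 ≤ n`, `s m = 1`, `s n = -1` conversely imply `D i j > 0` etc., so it is even equal).
`1 ≤ 1.17 < f (379/1250) ≤ C`. -/
def G_UPG : Prop := ∀ C : ℝ, (∀ N ∈ Icc (0 : ℝ) (1 / 2), f N ≤ C) →
  ∀ x : Fin 6 → E 3, (∀ i j, dist (x i) (x j) ≤ 1) → (∀ i j, i ≠ j → Dt x i j ≠ 0) →
    6 * volume (convexHull ℝ (range x)) ≤ ENNReal.ofReal C

/-- G_LSC, the volume of the hull is lower semicontinuous. Proof. The hull has the same volume as its interior (`Convex.addHaar_frontier`); by inner regularity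
(`IsOpen.exists_lt_isCompact`) there is a compact `K ⊆ interior` with `r < vol K`, and `δ > 0` with
`cthickening δ K ⊆ interior` (`IsCompact.exists_cthickening_subset_open`). Let all `dist (p i) (q i) < δ`. Then `K ⊆ conv (range q)`: if `z ∈ K` is not in
this compact convex set, there is (separation `geometric_hahn_banach_closed_point`, Riesz) a unit vector `w` with `⟪q i, w⟫ < ⟪z, w⟫` for all `i`. The point `z + δ w` is in the hull
of the `p i`, so for some `i`, `⟪z, w⟫ + δ ≤ ⟪p i, w⟫ ≤ ⟪q i, w⟫ + dist (p i) (q i) < ⟪z, w⟫ + δ`, a contradiction. (`n = 0`: the hull is empty and `r < 0` is impossible. `d = 0`: trivial, if `n ≥ 1` the hulls are equal to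
the whole space.) -/
def G_LSC : Prop := ∀ (d n : ℕ) (p : Fin n → E d) (r : ENNReal), r < volume (convexHull ℝ (range p)) →
  ∃ δ : ℝ, 0 < δ ∧ ∀ q : Fin n → E d, (∀ i, dist (p i) (q i) < δ) →
    r < volume (convexHull ℝ (range q))

/-- G_UP: prove `theorem thm (hG : G_UPG) (hD : G_DENS) (hL : G_LSC) (h6 : G_D6) (hN : G_NUM) : G_UP`.
Proof. Suppose `ofReal C < 6 vol (conv x)`. `C > 1` by `G_NUM`. Choose `η > 0` with `(1 + η)^3 C < 6 vol (conv x)`; by `G_LSC` (with `r = ofReal ((1 + η)^3 C / 6)`) and `G_DENS` there is `y` with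
`dist (x i) (y i) < min δ (η/2)`, all `Dt y i j ≠ 0` (`i ≠ j`) and `r < vol (conv y)`. Then `dist (y i) (y j) ≤ 1 + η`. Put `y' = (1 + η)⁻¹ • y`: distances at most `1`, generic by
`G_D6`, `vol (conv y') = (1 + η)^(-3) vol (conv y) > C / 6` (`Measure.addHaar_smul`, `convexHull_smul`), contradiction to `G_UPG`. -/
def G_UP : Prop := ∀ C : ℝ, (∀ N ∈ Icc (0 : ℝ) (1 / 2), f N ≤ C) →
  ∀ x : Fin 6 → E 3, (∀ i j, dist (x i) (x j) ≤ 1) →
    6 * (volume (convexHull ℝ (range x))).toReal ≤ C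

/-! ## Part L: the extremal polytope, and the tuples -/

/-- G_LD, the distances. Proof. Write `M = √(3/4 - N²)`, `h = hh N = M - r`, `r = √(1 - (1/2 + N)²)`. Squared distances: `01`: `1`. `02, 12, 05, 15`: `1/4 + h² + 1/4 ≤ 1` since
`0 ≤ h = (M² - r²)/(M + r) = N/(M + r) ≤ N/M ≤ 1/√2` (`M² ≥ 1/2`, `N ≤ 1/2`). `03, 13, 04, 14`: `N² + M² + 1/4 = 1`. `23, 45`: `(1/2 - N)² + r² ≤ 1`. `24, 35`:
`(1/2 + N)² + r² = 1`. `25`: `1`. `34`: `4N² ≤ 1`. -/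
def G_LD : Prop := ∀ N ∈ Icc (0 : ℝ) (1 / 2), ∀ i j, dist (Q N i) (Q N j) ≤ 1

/-- G_LV, the volume from below: prove `theorem thm (hSV : G_SV) : G_LV`.
Proof. `M, h, r` as in `G_LD`, `0 ≤ h`, `N h ≤ M/2` (`h ≤ 1/√2 ≤ M`). The three simplices `S1 = conv {Q0,Q1,Q2,Q3}`, `S2 = conv {Q0,Q1,Q3,Q4}`, `S3 = conv {Q0,Q1,Q4,Q5}` are contained
in the hull. `S1 ⊆ {N p1 + M p0 ≤ 0}`, `S2, S3 ⊆ {0 ≤ N p1 + M p0}`, `S2 ⊆ {M p0 - N p1 ≤ 0}`, `S3 ⊆ {0 ≤ M p0 - N p1}` (check at the vertices), so the intersections are contained in planes through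
the origin (`M > 0`), which are null sets (`Measure.addHaar_submodule`), and the volume of the union is the sum. By `G_SV`, `6 vol S1 = M/2 - N h = 6 vol S3`, `6 vol S2 = 2 N M`; the sum is
`M + 2N (M - h) = M + 2 N r = f N` (`2 r = √(4 - (1 + 2N)²)`). -/
def G_LV : Prop := ∀ N ∈ Icc (0 : ℝ) (1 / 2),
  ENNReal.ofReal (f N) ≤ 6 * volume (convexHull ℝ (range (Q N)))

/-- G_TUP, `V d n` and the tuples: prove `theorem thm (h1 : G_MAX) (h2 : G_MX1) (h3 : G_ATT) : G_TUP` (all proved, see `Pool.Agent.Helper86.Poly.Asm`,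
`Pool.Agent.Helper34.Poly.MX1`; you may use `Pool.Agent.Helper86.Poly.Lim`: `le_V`, and `Lim2`: `ext_enum`).
Proof. Let `p` be a maximiser (`G_MAX`). Its hull is admissible (`G_MX1`), so `vol (hull p) ≤ V d n` (`le_V`). By `G_ATT` there is an admissible `P` with `vol P = V d n`; `P` is the hull
of its `n` extreme points, whose distances are at most `1`, so `V d n ≤ vol (hull p)`. So for every tuple `q`, `vol (hull q) ≤ vol (hull p) = V d n` (volumes of hulls of finite sets are finite), and if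
equality holds then `q` is a maximiser too, so its hull is admissible by `G_MX1`. -/
def G_TUP : Prop := ∀ d n : ℕ, 2 ≤ d → d + 1 ≤ n →
  (∀ q : Fin n → E d, (∀ i j, dist (q i) (q j) ≤ 1) →
    (volume (convexHull ℝ (range q))).toReal ≤ V d n ∧
    ((volume (convexHull ℝ (range q))).toReal = V d n → Admissible d n (convexHull ℝ (range q)))) ∧
  ∃ p : Fin n → E d, (∀ i j, dist (p i) (p j) ≤ 1) ∧
    (volume (convexHull ℝ (range p))).toReal = V d n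

end Pool.Agent.Helper89.Vol
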