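import Pool.Agent.Helper89.Vol.Goals2

/-! # MP_cd13d2_co, packet V36-JA2E (after Pool.Agent.Helper24.Vol.JA2) -/

set_option autoImplicit false

namespace Pool.Agent.Helper89.Vol.PkJA2E

open Pool.Agent.Helper89.Vol

theorem thm : G_JA2E := by
  intro N g hN hN3 hg hg1
  have hM : 0 ≤ 3 / 4 - N ^ 2 := by nlinarith
  have hA : 0 ≤ 4 - (g + 2 * N) ^ 2 := by nlinarith
  set M := √(3 / 4 - N ^ 2) with hMd
  have hM0 : 0 ≤ M := Real.sqrt_nonneg _
  have hM2 : M ^ 2 = 3 / 4 - N ^ 2 := Real.sq_sqrt hM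
  set a := √(4 - (g + 2 * N) ^ 2) with had
  have ha0 : 0 ≤ a := Real.sqrt_nonneg _
  have ha2 : a ^ 2 = 4 - (g + 2 * N) ^ 2 := Real.sq_sqrt hA
  have hB : 1 ≤ 4 - (1 + 2 * N) ^ 2 := by nlinarith
  have hf : f N = M + N * √(4 - (1 + 2 * N) ^ 2) := rfl
  rw [hf]
  set b := √(4 - (1 + 2 * N) ^ 2) with hbd
  have hb2 : b ^ 2 = 4 - (1 + 2 * N) ^ 2 := Real.sq_sqrt (by linarith)
  have hb0 : 0 < b := Real.sqrt_pos.2 (by linarith)
  have hba : b ≤ a := Real.sqrt_le_sqrt (by nlinarith)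
  have h1 : N * (1 + 2 * N) < M * b := by
    have hlt : (N * (1 + 2 * N)) ^ 2 < (M * b) ^ 2 := by
      have h2 : (M * b) ^ 2 = (3 / 4 - N ^ 2) * (4 - (1 + 2 * N) ^ 2) := by
        rw [mul_pow, hM2, hb2]
      rw [h2]
      have h3 : (N * (1 + 2 * N)) ^ 2 ≤ (9 / 25 * (1 + 2 * (9 / 25))) ^ 2 := by
        gcongr
      have h4 : (3 / 4 - (9 / 25) ^ 2) * (4 - (1 + 2 * (9 / 25)) ^ 2) ≤
          (3 / 4 - N ^ 2) * (4 - (1 + 2 * N) ^ 2) := by
        have h5 : (3 / 4 - (9 / 25 : ℝ) ^ 2) ≤ 3 / 4 - N ^ 2 := by nlinarith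
        have h6 : (4 - (1 + 2 * (9 / 25 : ℝ)) ^ 2) ≤ 4 - (1 + 2 * N) ^ 2 := by nlinarith
        exact mul_le_mul h5 h6 (by norm_num) hM
      have h5 : (9 / 25 * (1 + 2 * (9 / 25 : ℝ))) ^ 2 <
          (3 / 4 - (9 / 25 : ℝ) ^ 2) * (4 - (1 + 2 * (9 / 25)) ^ 2) := by norm_num
      linarith
    exact lt_of_pow_lt_pow_left₀ 2 (by positivity) hlt
  have h2 : (a - b) * (2 * b) ≤ (1 - g) * (2 + 4 * N) := by
    have h3 : (a - b) * (a + b) = (1 - g) * (1 + g + 4 * N) := by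
      linear_combination ha2 - hb2
    have h4 : (a - b) * (2 * b) ≤ (a - b) * (a + b) :=
      mul_le_mul_of_nonneg_left (by linarith) (by linarith)
    have h5 : (1 - g) * (1 + g + 4 * N) ≤ (1 - g) * (2 + 4 * N) :=
      mul_le_mul_of_nonneg_left (by linarith) (by linarith)
    linarith
  have h3 : N * (a - b) * b < (1 - g) * M * b := by
    have h4 : N * ((a - b) * (2 * b)) ≤ N * ((1 - g) * (2 + 4 * N)) :=
      mul_le_mul_of_nonneg_left h2 hN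
    have h5 : (1 - g) * (N * (1 + 2 * N)) < (1 - g) * (M * b) :=
      mul_lt_mul_of_pos_left h1 (by linarith)
    nlinarith
  have h4 := lt_of_mul_lt_mul_right h3 hb0.le
  linarith

end Pool.Agent.Helper89.Vol.PkJA2E
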