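import Pool.Agent.Helper89.Vol.Main
import Pool.Agent.Helper86.Poly.Asm
import Pool.Agent.Helper71.Vol.D1
import Pool.Agent.Helper14.Vol.D2
import Pool.Agent.Helper72.Vol.D3
import Pool.Agent.Helper22.Vol.D4
import Pool.Agent.Helper26.Vol.D5
import Pool.Agent.Helper94.Vol.DENS
import Pool.Agent.Helper13.Vol.SRT
import Pool.Agent.Helper34.Vol.TW
import Pool.Agent.Helper62.Vol.COV1
import Pool.Agent.Helper32.Vol.COV2
import Pool.Agent.Helper48.Vol.HAD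
import Pool.Agent.Helper52.Vol.FIN2
import Pool.Agent.Helper79.Vol.JA1
import Pool.Agent.Helper24.Vol.JA2
import Pool.Agent.Helper57.Vol.JB
import Pool.Agent.Helper76.Vol.NUM
import Pool.Agent.Helper64.Vol.J
import Pool.Agent.Helper16.Vol.PA0
import Pool.Agent.Helper35.Vol.FRM
import Pool.Agent.Helper17.Vol.PATH
import Pool.Agent.Helper12.Vol.LSC
import Pool.Agent.Helper44.Vol.GEN
import Pool.Agent.Helper78.Vol.ALL
import Pool.Agent.Helper95.Vol.LD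
import Pool.Agent.Helper4.Vol.LV
import Pool.Agent.Helper87.Vol.TUP
import Pool.Agent.Helper98.Vol.UNI
import Pool.Agent.Helper89.Vol.JA2E
import Pool.Agent.Helper2.Vol.JE
import Pool.Agent.Helper95.Vol.PA0E
import Pool.Agent.Helper14.Vol.PATHE

/-! # MP_cd13d2_co : all packets of the theorem on `V(3,6)` together -/

set_option autoImplicit false

namespace Pool.Agent.Helper89.Vol

open MeasureTheory Set Pool.Agent.Helper86.Poly

theorem qMX1 : G_MX1 :=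
  Pool.Agent.Helper34.Poly.PkMX1.thm pMAX Pool.Agent.Helper10.Poly.PkAUG.thm pSTR

theorem qD1 : G_D1 := Pool.Agent.Helper71.Vol.PkD1.thm
theorem qD2 : G_D2 := Pool.Agent.Helper14.Vol.PkD2.thm
theorem qD3 : G_D3 := Pool.Agent.Helper72.Vol.PkD3.thm
theorem qD4 : G_D4 := Pool.Agent.Helper22.Vol.PkD4.thm
theorem qD5 : G_D5 := Pool.Agent.Helper26.Vol.PkD5.thm pSV qD3 qD4
theorem qDENS : G_DENS := Pool.Agent.Helper94.Vol.PkDENS.thm
theorem qTW : G_TW := Pool.Agent.Helper34.Vol.PkTW.thm Pool.Agent.Helper13.Vol.PkSRT.thm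
theorem qCOV2 : G_COV2 := Pool.Agent.Helper32.Vol.PkCOV2.thm Pool.Agent.Helper62.Vol.PkCOV1.thm
theorem qFIN2 : G_FIN2 := Pool.Agent.Helper52.Vol.PkFIN2.thm qD1 qD4 Pool.Agent.Helper48.Vol.PkHAD.thm
theorem qJA1 : G_JA1 := Pool.Agent.Helper79.Vol.PkJA1.thm
theorem qJA2 : G_JA2 := Pool.Agent.Helper24.Vol.PkJA2.thm
theorem qJB : G_JB := Pool.Agent.Helper57.Vol.PkJB.thm
theorem qNUM : G_NUM := Pool.Agent.Helper76.Vol.PkNUM.thm
theorem qJ : G_J := Pool.Agent.Helper64.Vol.PkJ.thm qJA1 qJA2 qJB qNUM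
theorem qPA0 : G_PA0 := Pool.Agent.Helper16.Vol.PkPA0.thm qJ
theorem qFRM : G_FRM := Pool.Agent.Helper35.Vol.PkFRM.thm
theorem qPATH : G_PATH := Pool.Agent.Helper17.Vol.PkPATH.thm qPA0 qFRM
theorem qLSC : G_LSC := Pool.Agent.Helper12.Vol.PkLSC.thm
theorem qGEN : G_GEN := Pool.Agent.Helper44.Vol.PkGEN.thm qD1 qD2 qD3 qD5 qTW qCOV2
theorem qALL : G_ALL := Pool.Agent.Helper78.Vol.PkALL.thm qGEN qDENS qLSC
theorem qLD : G_LD := Pool.Agent.Helper95.Vol.PkLD.thm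
theorem qLV : G_LV := Pool.Agent.Helper4.Vol.PkLV.thm pSV
theorem qTUP : G_TUP := Pool.Agent.Helper87.Vol.PkTUP.thm pMAX qMX1 pATT
theorem qUNI : G_UNI := Pool.Agent.Helper98.Vol.PkUNI.thm
theorem qJA2E : G_JA2E := Pool.Agent.Helper89.Vol.PkJA2E.thm
theorem qJE : G_JE := Pool.Agent.Helper2.Vol.PkJE.thm qJA1 qJA2 qJA2E qJB qNUM qUNI
theorem qPA0E : G_PA0E := Pool.Agent.Helper95.Vol.PkPA0E.thm qJE qUNI
theorem qPATHE : G_PATHE := Pool.Agent.Helper14.Vol.PkPATHE.thm qPA0E qFRM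

end Pool.Agent.Helper89.Vol
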