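import Pool.Agent.Helper89.Vol.Goals

/-! # MP_cd13d2_co : the exact value of `V(3,6)`, second part: the covering for all tuples, equality case, uniqueness

Rules as in `Goals.lean`: every packet is a `def G_... : Prop`; prove `theorem thm : G_...` (with the hypotheses named in the
docstring). -/

set_option autoImplicit false

namespace Pool.Agent.Helper89.Vol

open MeasureTheory Set Pool.Agent.Helper86.Poly

/-- the sum over the simplices of a sign pattern (the sum of `G_FIN`) -/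
noncomputable def T (y : Fin 6 → E 3) (c : ℝ) (s : Fin 6 → ℝ) : ℝ :=
  ∑ m, ∑ n, if n < m ∧ 2 ≤ n ∧ s m = 1 ∧ s n = -1 then c * Dt y m n else 0

/-- a sign pattern -/
def Pat (c : ℝ) (s : Fin 6 → ℝ) : Prop := (c = 1 ∨ c = -1) ∧ (∀ i, s i = 1 ∨ s i = -1) ∧ s 0 = 1 ∧ s 1 = 1

/-- the path sum -/
noncomputable def path (y : Fin 6 → E 3) : ℝ :=
  br (y 0) (y 1) (y 2) (y 3) + br (y 0) (y 1) (y 3) (y 4) + br (y 0) (y 1) (y 4) (y 5)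

/-- G_GEN, the covering inequality for generic points (no distances): prove
`theorem thm (h1 : G_D1) (h2 : G_D2) (h3 : G_D3) (h5 : G_D5) (hT : G_TW) (hC : G_COV2) : G_GEN`. Proof: the first part of the docstring of `G_UPG`
(the sum over the pairs of `G_COV2` is at most, in fact equal to, `T (x ∘ σ) c s` with `c = sign σ`; all terms of `T` are positive). -/
def G_GEN : Prop := ∀ x : Fin 6 → E 3, (∀ i j, i ≠ j → Dt x i j ≠ 0) →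
  ∃ (σ : Equiv.Perm (Fin 6)) (c : ℝ) (s : Fin 6 → ℝ), Pat c s ∧
    6 * volume (convexHull ℝ (range x)) ≤ ENNReal.ofReal (T (x ∘ σ) c s)

/-- G_ALL, the covering inequality for all tuples: prove `theorem thm (hG : G_GEN) (hD : G_DENS) (hL : G_LSC) : G_ALL`.
Proof. `y ↦ T (y ∘ σ) c s` is continuous (determinants; the conditions in the sum do not depend on `y`), and there are finitely many triples
`(σ, c, s)` with `Pat c s` (the set `{s | ∀ i, s i = 1 ∨ s i = -1}` is finite: `Set.Finite.pi`). By `G_DENS` there are generic `y_k → x`; by `G_GEN` and pigeonhole one triple `(σ, c, s)` works for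
infinitely many `k`. Then `6 vol (conv x) ≤ ofReal (T (x ∘ σ) c s)`: otherwise choose `r` with `ofReal (T (x ∘ σ) c s) < 6 r < 6 vol (conv x)` (`ENNReal.lt_iff_exists_...`, `exists_between`, divide by 6); by `G_LSC`
`r < vol (conv y_k)` and by continuity `ofReal (T (y_k ∘ σ) c s) < 6 r` for all large `k`, a contradiction. (Or by contradiction without sequences: for every triple
`ofReal (T (x ∘ σ) c s) < 6 vol (conv x)`, the maximum over the finitely many triples is still smaller, and take one generic `y` close to `x`.) -/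
def G_ALL : Prop := ∀ x : Fin 6 → E 3, ∃ (σ : Equiv.Perm (Fin 6)) (c : ℝ) (s : Fin 6 → ℝ), Pat c s ∧
    6 * volume (convexHull ℝ (range x)) ≤ ENNReal.ofReal (T (x ∘ σ) c s)

/-- G_FIN2, the sixteen sign patterns: prove `theorem thm (h1 : G_D1) (h4 : G_D4) (hH : G_HAD) : G_FIN2`. Proof: see `G_FIN`
(the pattern `mpmp` gives `-c * path y`, all the others are at most `1`). `G_FIN` is a corollary. -/
def G_FIN2 : Prop := ∀ y : Fin 6 → E 3, (∀ i j, dist (y i) (y j) ≤ 1) → ∀ (c : ℝ) (s : Fin 6 → ℝ), Pat c s →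
  T y c s ≤ 1 ∨ T y c s ≤ |path y|

/-- G_UNI, the maximiser is unique, and its equation. Proof. On `[0, 1/2)`: `f' N = -N/√(3/4 - N²) + (3 - 6N - 8N²)/√(3 - 4N - 4N²)` (note
`4 - (1 + 2N)² = 3 - 4N - 4N² = (1 - 2N)(3 + 2N)`). `f` is strictly concave on `[0, 1/2]`: `√(3/4 - N²)` is strictly concave, and `N √q`, `q = 3 - 4N - 4N²`, is concave, since `√q` is concave, decreasing
and `(N √q)'' = 2 (√q)' + N (√q)'' ≤ 0` (or directly: for `N < M`, `t ∈ (0,1)`; or show that `f'` is strictly decreasing on `(0, 1/2)`: `-N/√(3/4-N²)` is strictly decreasing, `3 - 6N - 8N²` is decreasing and ... only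
where it is positive; the second derivative argument avoids this). A strictly concave function has at most one maximiser. The maximiser `N` is in `(0, 1/2)` since `f 0 = √3/2 < 1`, `f (1/2) = 1/√2 < 1`, so `f' N = 0`, so
`(3 - 6N - 8N²)² (3/4 - N²) = N² (3 - 4N - 4N²)`, which is the equation divided by `-4`. The bounds: `0.3032 < N < 0.3033` from the signs of the polynomial or of `f'` (`f'` is decreasing, `f' 0.3032 > 0 > f' 0.3033`). -/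
def G_UNI : Prop := ∀ N ∈ Icc (0 : ℝ) (1 / 2), (∀ M ∈ Icc (0 : ℝ) (1 / 2), f M ≤ f N) →
  (∀ M ∈ Icc (0 : ℝ) (1 / 2), f M = f N → M = N) ∧
  256 * N ^ 6 + 384 * N ^ 5 - 256 * N ^ 4 - 448 * N ^ 3 + 84 * N ^ 2 + 108 * N - 27 = 0 ∧
  0.3032 < N ∧ N < 0.3033

/-- G_JA2E, the strict form of the first part of `G_JA2`. Proof: the same, `(1 - g) > 0` and the strict inequality `N (1 + 2N) < M0 √B`. -/
def G_JA2E : Prop := ∀ N g : ℝ, 0 ≤ N → N ≤ 9 / 25 → 0 ≤ g → g < 1 →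
  √(3 / 4 - N ^ 2) * g + N * √(4 - (g + 2 * N) ^ 2) < f N

/-- G_JE, equality in `G_J`: prove `theorem thm (h1 : G_JA1) (h2 : G_JA2) (h2e : G_JA2E) (h3 : G_JB) (hn : G_NUM) (hu : G_UNI) : G_JE`.
Proof. `f N₀ ≥ f (379/1250) > 1.17`. If `N g1 < √(3/4 - N²) g2` then `2 N g1 ≤ √3 g2` (as `√(3/4 - N²) ≤ √3/2`), and `G_JB` gives a contradiction. So by `G_JA1` the left side is at most
`M0 g1 + N √(4 - (g1 + 2N)²)`, `M0 = √(3/4 - N²)`. By `G_JA2`, `N < 9/25` (strictly: else `≤ 1.17`), and by `G_JA2E` `g1 = 1` (else the left side is `< f N ≤ f N₀`). So `g2 = 0`, and `f N₀ ≤ LHS ≤ f N`, so `N = N₀` by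
`G_UNI`, `N > 0`. Now `f N ≤ M + N S`, `M² ≤ M0² - 2 k N - k²`, so `M ≤ M0`, `S² ≤ 3 - 4N - 4N²`, so `S ≤ √(4 - (1 + 2N)²)`; hence `M = M0`, `S = √(4 - (1 + 2N)²)` (as `N > 0`) and `k = 0` (as `2 k N ≤ 0`). -/
def G_JE : Prop := ∀ N₀ ∈ Icc (0 : ℝ) (1 / 2), (∀ N ∈ Icc (0 : ℝ) (1 / 2), f N ≤ f N₀) →
  ∀ N k M g1 g2 S : ℝ, 0 ≤ N → N ≤ 1 / 2 → 0 ≤ k → 0 ≤ M → 0 ≤ g1 → 0 ≤ g2 → 0 ≤ S →
  (k + N) ^ 2 + M ^ 2 ≤ 3 / 4 → g1 ^ 2 + g2 ^ 2 ≤ 1 →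
  S ^ 2 + g1 ^ 2 + g2 ^ 2 + 4 * N ^ 2 + 4 * N * g1 ≤ 4 →
  f N₀ ≤ k * g2 + M * g1 + N * S →
  N = N₀ ∧ k = 0 ∧ M = √(3 / 4 - N₀ ^ 2) ∧ g1 = 1 ∧ g2 = 0 ∧ S = √(4 - (1 + 2 * N₀) ^ 2)

/-- G_PA0E, equality in adapted coordinates: prove `theorem thm (h : G_JE) (hu : G_UNI) : G_PA0E`.
Proof. Notation of `G_PA0` (`n, m, g, σ`). By `G_JE` for `N = l n`, `k = l |m0|`, `M = l |m1|`, `g1 = |g0|`, `g2 = |g1'|`, `S = |σ1|`: `l n = N₀ > 0`, `l |m0| = 0`, `l |m1| = M0`, `|g0| = 1`, `g1' = 0`,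
`|σ1| = S0 := √(4 - (1 + 2 N₀)²)`. `3/4 = N₀² + M0² = l² (n² + m1²) ≤ l² (1 - l²/4) ≤ 3/4`, so `l = 1`, `n = N₀`, `m0 = 0`, `|m1| = M0`, so `b0 = -N₀`, `c0 = N₀`, `b1 = c1 = m1`, `b0² + b1² = 3/4`, and the two distances to the ends of the segment give
`(b2 - z)² + (b2 - z - 1)² ≤ 1/2`, so `b2 = z + 1/2`; the same for `c2`. From `σ0² + σ1² + (|g0| + 2n)² ≤ 4` and `σ1² = 4 - (1 + 2 N₀)²`: `σ0 = 0`. So `a0 + d0 = 0`, `d0 - a0 = g0 = ±1`, `a1 = d1`. The value is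
`l (m0 g1' - m1 g0 + n σ1)`, its absolute value is at least `M0 + N₀ S0`, so `-m1 g0` and `σ1` have the same sign (both are not zero, `S0 > 0`). If `g0 = -1`: `m1` and `σ1 = 2 (a1 - m1)` have the same sign, `|a1| = |m1| + S0/2 > M0`, and
`a0² + a1² > 1/4 + M0² > 3/4` (since `M0² = 3/4 - N₀² > 1/2`), contradiction to `a0² + a1² ≤ 3/4`. So `g0 = 1`: `a0 = -1/2`, `d0 = 1/2`, `σ1` has the sign of `-m1`: `a1 = d1 = m1 - sign(m1) S0/2 = sign(m1) (M0 - S0/2) = sign(m1) hh N₀`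
(`S0/2 = √(1 - (1/2 + N₀)²)`). -/
def G_PA0E : Prop := ∀ N ∈ Icc (0 : ℝ) (1 / 2), (∀ M ∈ Icc (0 : ℝ) (1 / 2), f M ≤ f N) →
  ∀ z l a0 a1 a2 b0 b1 b2 c0 c1 c2 d0 d1 d2 : ℝ, 0 ≤ l → l ≤ 1 → c1 = b1 → b0 ≤ c0 →
  a0 ^ 2 + a1 ^ 2 + (a2 - z) ^ 2 ≤ 1 → a0 ^ 2 + a1 ^ 2 + (a2 - z - l) ^ 2 ≤ 1 →
  b0 ^ 2 + b1 ^ 2 + (b2 - z) ^ 2 ≤ 1 → b0 ^ 2 + b1 ^ 2 + (b2 - z - l) ^ 2 ≤ 1 →
  c0 ^ 2 + c1 ^ 2 + (c2 - z) ^ 2 ≤ 1 → c0 ^ 2 + c1 ^ 2 + (c2 - z - l) ^ 2 ≤ 1 →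
  d0 ^ 2 + d1 ^ 2 + (d2 - z) ^ 2 ≤ 1 → d0 ^ 2 + d1 ^ 2 + (d2 - z - l) ^ 2 ≤ 1 →
  (a0 - b0) ^ 2 + (a1 - b1) ^ 2 ≤ 1 → (a0 - c0) ^ 2 + (a1 - c1) ^ 2 ≤ 1 →
  (a0 - d0) ^ 2 + (a1 - d1) ^ 2 ≤ 1 → (b0 - c0) ^ 2 + (b1 - c1) ^ 2 ≤ 1 →
  (b0 - d0) ^ 2 + (b1 - d1) ^ 2 ≤ 1 → (c0 - d0) ^ 2 + (c1 - d1) ^ 2 ≤ 1 →
  f N ≤ |l * ((a0 * b1 - a1 * b0) + (b0 * c1 - b1 * c0) + (c0 * d1 - c1 * d0))| →
  l = 1 ∧ b0 = -N ∧ c0 = N ∧ b2 = z + 1 / 2 ∧ c2 = z + 1 / 2 ∧ a0 = -(1 / 2) ∧ d0 = 1 / 2 ∧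
  ((b1 = √(3 / 4 - N ^ 2) ∧ a1 = hh N ∧ d1 = hh N) ∨
    (b1 = -√(3 / 4 - N ^ 2) ∧ a1 = -hh N ∧ d1 = -hh N))

/-- G_PATHE, equality in the path inequality: prove `theorem thm (h : G_PA0E) (hF : G_FRM) : G_PATHE`.
Proof. As for `G_PATH`: `y' k = L (y k - y 0)`. `G_PA0E` with `z = 0` gives the coordinates of `y' 2, ..., y' 5` except the third coordinates of `a = y' 2` and `d = y' 5`; the planar distance of `a` and `c` is `1`
(`(1/2 + N)² + (M0 - hh N)² = 1`), so `a2 = c2`, in the same way `d2 = b2`. So `y' = Q N` or `y'` is the image of `Q N` under the reflection in the second coordinate. Compose the isometries. -/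
def G_PATHE : Prop := ∀ N ∈ Icc (0 : ℝ) (1 / 2), (∀ M ∈ Icc (0 : ℝ) (1 / 2), f M ≤ f N) →
  ∀ y : Fin 6 → E 3, (∀ i j, dist (y i) (y j) ≤ 1) → f N ≤ |path y| →
    ∃ φ : E 3 ≃ᵢ E 3, ∀ k, φ (Q N k) = y k

end Pool.Agent.Helper89.Vol
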