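import Pool.Agent.Helper89.Vol.Goals2
import Pool.Agent.Helper86.Poly.Lim2

/-! # MP_cd13d2_co : assembly of the theorem on `V(3,6)` from the packets -/

set_option autoImplicit false

namespace Pool.Agent.Helper89.Vol

open MeasureTheory Set Pool.Agent.Helper86.Poly

theorem hull_compact {d n : ℕ} (x : Fin n → E d) : IsCompact (convexHull ℝ (range x)) :=
  (Set.finite_range x).isCompact_convexHull ℝ

theorem hull_ne_top {d n : ℕ} (x : Fin n → E d) : volume (convexHull ℝ (range x)) ≠ ⊤ :=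
  (hull_compact x).measure_lt_top.ne

/-- the image of a hull under an isometry -/
theorem image_hull (φ : E 3 ≃ᵢ E 3) (x : Fin 6 → E 3) :
    φ '' convexHull ℝ (range x) = convexHull ℝ (range fun k => φ (x k)) := by
  have h := (φ.toRealAffineIsometryEquiv.toAffineEquiv : E 3 →ᵃ[ℝ] E 3).image_convexHull (range x)
  have e : ∀ s : Set (E 3), (⇑(φ.toRealAffineIsometryEquiv.toAffineEquiv : E 3 →ᵃ[ℝ] E 3)) '' s = φ '' s := by
    intro s
    rfl
  rw [e, e] at h
  rw [h, ← range_comp]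
  rfl

theorem mp (φ : E 3 ≃ᵢ E 3) : MeasurePreserving φ (volume : Measure (E 3)) volume := by
  let A := φ.toRealAffineIsometryEquiv
  have h1 : MeasurePreserving (A.linearIsometryEquiv : E 3 → E 3) volume volume :=
    A.linearIsometryEquiv.measurePreserving
  have h2 : MeasurePreserving (fun y : E 3 => y + φ 0) volume volume :=
    measurePreserving_add_right volume (φ 0)
  have h3 := h2.comp h1
  have e : (φ : E 3 → E 3) = (fun y : E 3 => y + φ 0) ∘ (A.linearIsometryEquiv : E 3 → E 3) := by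
    funext y
    have := A.map_vadd 0 y
    simp only [vadd_eq_add, add_zero] at this
    exact this
  rw [e]
  exact h3

theorem vol_image (φ : E 3 ≃ᵢ E 3) (x : Fin 6 → E 3) :
    volume (φ '' convexHull ℝ (range x)) = volume (convexHull ℝ (range x)) := by
  have h := (mp φ.symm).measure_preimage (hull_compact x).measurableSet.nullMeasurableSet
  rw [← h]
  congr 1
  exact φ.toEquiv.image_eq_preimage_symm _

/-- the upper bound for tuples -/
theorem up (hALL : G_ALL) (hFIN : G_FIN2) (hPATH : G_PATH) {C : ℝ} (hC1 : 1 ≤ C)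
    (hC : ∀ N ∈ Icc (0 : ℝ) (1 / 2), f N ≤ C) (x : Fin 6 → E 3) (hx : ∀ i j, dist (x i) (x j) ≤ 1) :
    6 * (volume (convexHull ℝ (range x))).toReal ≤ C := by
  obtain ⟨σ, c, s, hp, h⟩ := hALL x
  have hd : ∀ i j, dist ((x ∘ σ) i) ((x ∘ σ) j) ≤ 1 := fun i j => hx _ _
  have hT : T (x ∘ σ) c s ≤ C := by
    rcases hFIN (x ∘ σ) hd c s hp with h1 | h1
    · linarith
    · exact h1.trans (hPATH C hC (x ∘ σ) hd)
  have h2 : 6 * volume (convexHull ℝ (range x)) ≤ ENNReal.ofReal C :=
    h.trans (ENNReal.ofReal_le_ofReal hT)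
  have h3 := ENNReal.toReal_mono ENNReal.ofReal_ne_top h2
  rw [ENNReal.toReal_mul, ENNReal.toReal_ofReal (by linarith)] at h3
  simpa using h3

theorem main (hALL : G_ALL) (hFIN : G_FIN2) (hPATH : G_PATH) (hPE : G_PATHE) (hNUM : G_NUM)
    (hUNI : G_UNI) (hLD : G_LD) (hLV : G_LV) (hTUP : G_TUP) (hATT : G_ATT) :
    IsGreatest {v : ℝ | ∃ P : Set (E 3), Admissible 3 6 P ∧ v = (volume P).toReal} (V 3 6) ∧
    ∃ N ∈ Icc (0 : ℝ) (1 / 2),
      256 * N ^ 6 + 384 * N ^ 5 - 256 * N ^ 4 - 448 * N ^ 3 + 84 * N ^ 2 + 108 * N - 27 = 0 ∧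
      0.3032 < N ∧ N < 0.3033 ∧ (∀ M ∈ Icc (0 : ℝ) (1 / 2), M ≠ N → f M < f N) ∧
      6 * V 3 6 = f N ∧ 0.1954088 < V 3 6 ∧ V 3 6 < 0.195409 ∧
      ∀ P : Set (E 3), (Admissible 3 6 P ∧ (volume P).toReal = V 3 6) ↔
        ∃ φ : E 3 ≃ᵢ E 3, P = φ '' convexHull ℝ (range (Q N)) := by
  obtain ⟨⟨N, hN, hmax⟩, hlo, hhi⟩ := hNUM
  have hmem : (379 / 1250 : ℝ) ∈ Icc (0 : ℝ) (1 / 2) := by constructor <;> norm_num
  have hfN1 : 1.172453 < f N := hlo.trans_le (hmax _ hmem)
  have hfN2 : f N < 1.172454 := hhi N hN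
  obtain ⟨huni, hpol, hb1, hb2⟩ := hUNI N hN hmax
  obtain ⟨htup, p, hpd, hpv⟩ := hTUP 3 6 (by norm_num) (by norm_num)
  have hup := fun x hx => up hALL hFIN hPATH (C := f N) (by linarith) hmax x hx
  have hQv : f N ≤ 6 * (volume (convexHull ℝ (range (Q N)))).toReal := by
    have h := ENNReal.toReal_mono (ENNReal.mul_ne_top (by norm_num) (hull_ne_top (Q N))) (hLV N hN)
    rw [ENNReal.toReal_mul, ENNReal.toReal_ofReal (by linarith)] at h
    simpa using h
  have hQ := htup (Q N) (hLD N hN)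
  have hV : 6 * V 3 6 = f N := by
    apply le_antisymm
    · rw [← hpv]; exact hup p hpd
    · linarith [hQ.1]
  have hQV : (volume (convexHull ℝ (range (Q N)))).toReal = V 3 6 := by
    apply le_antisymm hQ.1
    linarith
  refine ⟨⟨?_, ?_⟩, N, hN, hpol, hb1, hb2, ?_, hV, by linarith, by linarith, ?_⟩
  · obtain ⟨⟨P, hP, hPv⟩, -, -⟩ := hATT 3 6 (by norm_num) (by norm_num)
    exact ⟨P, hP, hPv.symm⟩
  · rintro v ⟨P, hP, rfl⟩
    exact le_V hP
  · intro M hM hne
    exact lt_of_le_of_ne (hmax M hM) fun h => hne (huni M hM h)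
  · intro P
    constructor
    · rintro ⟨hP, hPv⟩
      obtain ⟨c, rfl⟩ := ext_enum (by norm_num) hP
      have hcd : ∀ i j, dist (c i) (c j) ≤ 1 := by
        intro i j
        have h := hP.2.2.2
        rw [← h]
        exact Metric.dist_le_diam_of_mem (hull_compact c).isBounded
          (subset_convexHull ℝ _ (mem_range_self i)) (subset_convexHull ℝ _ (mem_range_self j))
      obtain ⟨σ, e, s, hp, h⟩ := hALL c
      have hd : ∀ i j, dist ((c ∘ σ) i) ((c ∘ σ) j) ≤ 1 := fun i j => hcd _ _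
      have h1 : f N ≤ T (c ∘ σ) e s := by
        by_contra hlt
        push Not at hlt
        have h3 := ENNReal.toReal_mono ENNReal.ofReal_ne_top h
        rw [ENNReal.toReal_mul, hPv, ENNReal.toReal_ofReal'] at h3
        have h4 : (6 : ENNReal).toReal * V 3 6 = f N := by rw [← hV]; norm_num
        rw [h4] at h3
        rcases le_max_iff.1 h3 with h5 | h5 <;> linarith
      have h2 : f N ≤ |path (c ∘ σ)| := by
        rcases hFIN (c ∘ σ) hd e s hp with h3 | h3
        · linarith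
        · exact h1.trans h3
      obtain ⟨φ, hφ⟩ := hPE N hN hmax (c ∘ σ) hd h2
      refine ⟨φ, ?_⟩
      rw [image_hull]
      have : (fun k => φ (Q N k)) = c ∘ σ := funext hφ
      rw [this, range_comp, σ.surjective.range_eq, image_univ]
    · rintro ⟨φ, rfl⟩
      rw [image_hull]
      have hd : ∀ i j, dist (φ (Q N i)) (φ (Q N j)) ≤ 1 := fun i j => by
        rw [φ.dist_eq]; exact hLD N hN i j
      have hv : (volume (convexHull ℝ (range fun k => φ (Q N k)))).toReal = V 3 6 := by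
        rw [← image_hull, vol_image, hQV]
      exact ⟨(htup _ hd).2 hv, hv⟩

end Pool.Agent.Helper89.Vol
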